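import Pool.Agent.H75.EH.Asm

/-!
# EH-L1: no circle splits the lemniscate, then one disc

`NV r`: the mean over the circle of radius `r` about `0` of the Green function of the segment `[0, 4]`.
`NN f e r`: the mean of `(1/n) log |f|` over the circle of radius `r` about `e`, in terms of the zeros.
`one_disc`: `NN f e ≤ NV` on `(0, ∞)` gives that the mean distance of the zeros from `e` is at most `2`.
-/

set_option autoImplicit false

open Polynomial Complex MeasureTheory Set
open scoped Real ComplexConjugate
open Pool.Agent.H88.LD Pool.Agent.H88.LE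

noncomputable section

namespace Pool.Agent.H75.EH

/-- mean over `|z| = r` of the Green function of `[0, 4]` -/
def NV (r : ℝ) : ℝ := 1 / π * ∫ θ in (0 : ℝ)..π, Real.log (max r (2 + 2 * Real.cos θ))

/-- mean over `|z - e| = r` of `(1/n) log |f|` -/
def NN (f : ℂ[X]) (e : ℂ) (r : ℝ) : ℝ :=
  1 / (f.natDegree : ℝ) * (f.roots.map (fun a => Real.log (max r ‖a - e‖))).sum

theorem intervalIntegrable_log_max (t T : ℝ) (ht : 0 ≤ t) (hT : 0 ≤ T) :
    IntervalIntegrable (fun r => Real.log (max r t)) volume 0 T := by
  rcases ht.eq_or_lt with h | h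
  · subst h
    have h1 : IntervalIntegrable Real.log volume 0 T := intervalIntegral.intervalIntegrable_log'
    refine h1.congr ?_
    intro r hr
    rw [uIoc_of_le hT] at hr
    simp only
    rw [max_eq_left hr.1.le]
  · refine ContinuousOn.intervalIntegrable ?_
    refine ContinuousOn.log (by fun_prop) fun r _ => ?_
    exact (lt_of_lt_of_le h (le_max_right _ _)).ne'

theorem integral_log_max {t T : ℝ} (ht : 0 ≤ t) (hT : t ≤ T) :
    ∫ r in (0 : ℝ)..T, Real.log (max r t) = T * Real.log T - T + t := by
  have h0 := intervalIntegrable_log_max t t ht ht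
  have h1 := intervalIntegrable_log_max t T ht (ht.trans hT)
  have h2 : IntervalIntegrable (fun r => Real.log (max r t)) volume t T := h0.symm.trans h1
  rw [← intervalIntegral.integral_add_adjacent_intervals h0 h2]
  have h3 : ∫ r in (0 : ℝ)..t, Real.log (max r t) = ∫ r in (0 : ℝ)..t, Real.log t := by
    refine intervalIntegral.integral_congr fun r hr => ?_
    rw [uIcc_of_le ht] at hr
    rw [max_eq_right hr.2]
  have h4 : ∫ r in t..T, Real.log (max r t) = ∫ r in t..T, Real.log r := by
    refine intervalIntegral.integral_congr fun r hr => ?_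
    rw [uIcc_of_le hT] at hr
    rw [max_eq_left hr.1]
  rw [h3, h4, intervalIntegral.integral_const, integral_log]
  simp only [sub_zero, smul_eq_mul]
  ring

theorem integral_roots (s : Multiset ℂ) (e : ℂ) (T : ℝ) (hT0 : 0 ≤ T) (hT : ∀ a ∈ s, ‖a - e‖ ≤ T) :
    IntervalIntegrable (fun r => (s.map (fun a => Real.log (max r ‖a - e‖))).sum) volume 0 T ∧
    ∫ r in (0 : ℝ)..T, (s.map (fun a => Real.log (max r ‖a - e‖))).sum =
      (Multiset.card s : ℝ) * (T * Real.log T - T) + (s.map (fun a => ‖a - e‖)).sum := by
  induction s using Multiset.induction_on with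
  | empty => simp
  | cons b s ih =>
    obtain ⟨h1, h2⟩ := ih fun a ha => hT a (Multiset.mem_cons_of_mem ha)
    have hb := hT b (Multiset.mem_cons_self b s)
    have h3 := intervalIntegrable_log_max ‖b - e‖ T (norm_nonneg _) hT0
    simp only [Multiset.map_cons, Multiset.sum_cons, Multiset.card_cons]
    refine ⟨h3.add h1, ?_⟩
    rw [intervalIntegral.integral_add h3 h1, h2, integral_log_max (norm_nonneg _) hb]
    push_cast
    ring

theorem two_add_two_cos_nonneg (θ : ℝ) : 0 ≤ 2 + 2 * Real.cos θ := by
  linarith [Real.neg_one_le_cos θ]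

theorem two_add_two_cos_le (θ : ℝ) : 2 + 2 * Real.cos θ ≤ 4 := by
  linarith [Real.cos_le_one θ]

theorem integrable_prod_NV (T : ℝ) (hT : 4 ≤ T) :
    Integrable (Function.uncurry fun r θ : ℝ => Real.log (max r (2 + 2 * Real.cos θ)))
      ((volume.restrict (Ioc 0 T)).prod (volume.restrict (Ioc 0 π))) := by
  have h1 : Integrable (fun r : ℝ => |Real.log r| + Real.log T) (volume.restrict (Ioc 0 T)) := by
    have h2 : IntervalIntegrable Real.log volume 0 T := intervalIntegral.intervalIntegrable_log'
    have h3 : IntegrableOn Real.log (Ioc 0 T) volume :=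
      (intervalIntegrable_iff_integrableOn_Ioc_of_le (by linarith)).1 h2
    exact h3.abs.add (integrable_const _)
  have h4 : Integrable (fun q : ℝ × ℝ => (|Real.log q.1| + Real.log T) * 1)
      ((volume.restrict (Ioc 0 T)).prod (volume.restrict (Ioc 0 π))) :=
    h1.mul_prod (integrable_const (1 : ℝ))
  refine h4.mono' ?_ ?_
  · refine Measurable.aestronglyMeasurable ?_
    unfold Function.uncurry
    fun_prop
  · rw [Measure.prod_restrict]
    refine (ae_restrict_iff' (measurableSet_Ioc.prod measurableSet_Ioc)).2 (Filter.Eventually.of_forall ?_)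
    rintro ⟨r, θ⟩ ⟨hr, hθ⟩
    simp only [Function.uncurry, mul_one]
    simp only at hr
    rw [Real.norm_eq_abs]
    have hT1 : 0 ≤ Real.log T := Real.log_nonneg (by linarith)
    rcases le_total (2 + 2 * Real.cos θ) r with h | h
    · rw [max_eq_left h]
      linarith
    · rw [max_eq_right h]
      have h5 : Real.log r ≤ Real.log (2 + 2 * Real.cos θ) := Real.log_le_log hr.1 h
      have h6 : Real.log (2 + 2 * Real.cos θ) ≤ Real.log T :=
        Real.log_le_log (hr.1.trans_le h) ((two_add_two_cos_le θ).trans hT)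
      rw [abs_le]
      constructor
      · have := neg_abs_le (Real.log r)
        linarith
      · have := abs_nonneg (Real.log r)
        linarith

theorem integral_NV (T : ℝ) (hT : 4 ≤ T) :
    IntervalIntegrable NV volume 0 T ∧ ∫ r in (0 : ℝ)..T, NV r = T * Real.log T - T + 2 := by
  have hT0 : (0 : ℝ) ≤ T := by linarith
  have hint := integrable_prod_NV T hT
  have hpi : (0 : ℝ) ≤ π := Real.pi_pos.le
  have h1 : NV = fun r => 1 / π * ∫ θ in Ioc 0 π, Real.log (max r (2 + 2 * Real.cos θ)) := by
    funext r
    unfold NV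
    rw [intervalIntegral.integral_of_le hpi]
  constructor
  · rw [h1, intervalIntegrable_iff_integrableOn_Ioc_of_le hT0]
    exact (hint.integral_prod_left).const_mul _
  · have h2 : ∫ r in (0 : ℝ)..T, NV r =
        1 / π * ∫ r in Ioc 0 T, ∫ θ in Ioc 0 π, Real.log (max r (2 + 2 * Real.cos θ)) := by
      rw [intervalIntegral.integral_of_le hT0, h1, integral_const_mul]
    rw [h2, integral_integral_swap hint]
    have h3 : ∀ θ : ℝ, ∫ r in Ioc 0 T, Real.log (max r (2 + 2 * Real.cos θ)) =
        T * Real.log T - T + (2 + 2 * Real.cos θ) := by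
      intro θ
      rw [← intervalIntegral.integral_of_le hT0]
      exact integral_log_max (two_add_two_cos_nonneg θ) ((two_add_two_cos_le θ).trans hT)
    simp only [h3]
    rw [← intervalIntegral.integral_of_le hpi]
    rw [intervalIntegral.integral_add (by simp) (by
      refine Continuous.intervalIntegrable ?_ _ _
      fun_prop)]
    rw [intervalIntegral.integral_add (by simp) (by
      refine Continuous.intervalIntegrable ?_ _ _
      fun_prop)]
    rw [intervalIntegral.integral_const, intervalIntegral.integral_const,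
      intervalIntegral.integral_const_mul, integral_cos]
    simp only [sub_zero, smul_eq_mul, Real.sin_pi, Real.sin_zero]
    field_simp
    ring

theorem one_disc {f : ℂ[X]} (hn0 : f.natDegree ≠ 0) (e : ℂ)
    (h : ∀ r, 0 < r → NN f e r ≤ NV r) : ‖e - cen f‖ ≤ 2 := by
  have hcard : Multiset.card f.roots = f.natDegree := IsAlgClosed.card_roots_eq_natDegree
  have hn : (0 : ℝ) < f.natDegree := by exact_mod_cast Nat.pos_of_ne_zero hn0
  obtain ⟨T, hT4, hT⟩ : ∃ T : ℝ, 4 ≤ T ∧ ∀ a ∈ f.roots, ‖a - e‖ ≤ T := by
    have h1 : ∀ s : Multiset ℂ, ∃ T : ℝ, 4 ≤ T ∧ ∀ a ∈ s, ‖a - e‖ ≤ T := by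
      intro s
      induction s using Multiset.induction_on with
      | empty => exact ⟨4, le_rfl, by simp⟩
      | cons b s ih =>
        obtain ⟨T, h1, h2⟩ := ih
        refine ⟨max T ‖b - e‖, h1.trans (le_max_left _ _), ?_⟩
        intro a ha
        rcases Multiset.mem_cons.1 ha with h3 | h3
        · rw [h3]
          exact le_max_right _ _
        · exact (h2 a h3).trans (le_max_left _ _)
    exact h1 _
  have hT0 : (0 : ℝ) ≤ T := by linarith
  obtain ⟨h1, h2⟩ := integral_roots f.roots e T hT0 hT
  obtain ⟨h3, h4⟩ := integral_NV T hT4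
  have h5 : ∫ r in (0 : ℝ)..T, NN f e r =
      T * Real.log T - T + 1 / (f.natDegree : ℝ) * (f.roots.map (fun a => ‖a - e‖)).sum := by
    unfold NN
    rw [intervalIntegral.integral_const_mul, h2, hcard]
    field_simp
  have h6 : ∫ r in (0 : ℝ)..T, NN f e r ≤ ∫ r in (0 : ℝ)..T, NV r := by
    refine intervalIntegral.integral_mono_on_of_le_Ioo hT0 ?_ h3 fun r hr => h r hr.1
    exact h1.const_mul _
  have h7 : 1 / (f.natDegree : ℝ) * (f.roots.map (fun a => ‖a - e‖)).sum ≤ 2 := by
    rw [h5, h4] at h6
    linarith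
  have h8 : e - cen f = (1 / (f.natDegree : ℂ)) * (f.roots.map (fun a => e - a)).sum := by
    rw [Multiset.sum_map_sub, Multiset.map_const', Multiset.sum_replicate, hcard, Multiset.map_id']
    unfold cen
    have hnC : (f.natDegree : ℂ) ≠ 0 := by exact_mod_cast hn0
    rw [nsmul_eq_mul]
    field_simp
  rw [h8, norm_mul]
  have h9 : ‖(1 / (f.natDegree : ℂ))‖ = 1 / (f.natDegree : ℝ) := by
    rw [norm_div, norm_one, Complex.norm_natCast]
  rw [h9]
  refine le_trans (mul_le_mul_of_nonneg_left ?_ (by positivity)) h7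
  refine (norm_multiset_sum_le _).trans (le_of_eq ?_)
  rw [Multiset.map_map]
  congr 1
  refine Multiset.map_congr rfl fun a _ => ?_
  exact norm_sub_rev _ _

end Pool.Agent.H75.EH
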