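import Pool.Agent.H88.LE.KB
import Pool.Agent.H88.LE.CDa
import Pool.Agent.H88.LE.IA
import Pool.Prelude.Def_F_472fcd70

/-!
# EH-Asm: from the circle theorem to discs of total radius 2

`TD K d`: the Vandermonde products of the points of `K` are eventually less than `c^{k(k-1)/2}` for every `c > d`.
`CircSplit f e r p`: the circle of radius `r` about `e` misses `{|f| ≤ 1}`, there are zeros of `f` on both sides, and the two
parts satisfy `TD` with constants `p` and `1 - p`, `0 < p < 1`.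
`CircleThm`: there is such a circle about every `e` with `|f e| < 1` whose distance to the centroid of the zeros is greater
than `2`.
`cover_two`: `CircleThm` gives the covering by discs of positive radii with sum at most `2`.
-/

set_option autoImplicit false

open Polynomial Complex MeasureTheory Set
open scoped Real ComplexConjugate
open Pool.Agent.H88.LD Pool.Agent.H88.LE

noncomputable section

namespace Pool.Agent.H75.EH

/-- transfinite diameter at most `d` -/
def TD (K : Set ℂ) (d : ℝ) : Prop :=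
  ∀ c, d < c → ∃ k : ℕ, 0 < k ∧ ∀ z : Fin k → ℂ, (∀ i, z i ∈ K) →
    ‖(Matrix.vandermonde z).det‖ < c ^ ((k : ℝ) * (k - 1) / 2)

/-- the centroid of the zeros -/
def cen (f : ℂ[X]) : ℂ := f.roots.sum / f.natDegree

/-- the circle `|z - e| = r` splits the lemniscate of `f` into parts of transfinite diameters at most `p`, `1 - p` -/
structure CircSplit (f : ℂ[X]) (e : ℂ) (r p : ℝ) : Prop where
  pos : 0 < p
  lt : p < 1
  miss : ∀ z, ‖z - e‖ = r → 1 < ‖f.eval z‖
  inn : ∃ a, f.eval a = 0 ∧ ‖a - e‖ < r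
  out : ∃ a, f.eval a = 0 ∧ r < ‖a - e‖
  tdA : TD (lem f 1 ∩ {z | ‖z - e‖ < r}) p
  tdB : TD (lem f 1 ∩ {z | r < ‖z - e‖}) (1 - p)

/-- the circle theorem -/
def CircleThm : Prop :=
  ∀ f : ℂ[X], f.Monic → f.natDegree ≠ 0 → ∀ e : ℂ, ‖f.eval e‖ < 1 → 2 < ‖e - cen f‖ →
    ∃ r p, CircSplit f e r p

/-- covers with at most `m` discs -/
def CovN (m : ℕ) (S : Set ℂ) (ρ : ℝ) : Prop :=
  ∃ (M : Fin m → ℂ) (R : Fin m → ℝ), (∀ c, 0 ≤ R c) ∧
    (∀ z ∈ S, ∃ c, ‖z - M c‖ ≤ R c) ∧ ∑ c, R c ≤ ρ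

theorem CovN.mono {m : ℕ} {S : Set ℂ} {ρ ρ' : ℝ} (h : CovN m S ρ) (hρ : ρ ≤ ρ') :
    CovN m S ρ' := by
  obtain ⟨M, R, h0, h1, h2⟩ := h
  exact ⟨M, R, h0, h1, h2.trans hρ⟩

theorem CovN.subset {m : ℕ} {S S' : Set ℂ} {ρ : ℝ} (h : CovN m S ρ) (hS : S' ⊆ S) :
    CovN m S' ρ := by
  obtain ⟨M, R, h0, h1, h2⟩ := h
  exact ⟨M, R, h0, fun z hz => h1 z (hS hz), h2⟩

theorem CovN.union {m m' : ℕ} {S S' : Set ℂ} {ρ ρ' : ℝ} (h : CovN m S ρ) (h' : CovN m' S' ρ') :
    CovN (m + m') (S ∪ S') (ρ + ρ') := by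
  obtain ⟨M, R, h0, h1, h2⟩ := h
  obtain ⟨M', R', h0', h1', h2'⟩ := h'
  refine ⟨Fin.append M M', Fin.append R R', ?_, ?_, ?_⟩
  · intro c
    refine Fin.addCases (fun i => ?_) (fun i => ?_) c
    · rw [Fin.append_left]; exact h0 i
    · rw [Fin.append_right]; exact h0' i
  · rintro z (hz | hz)
    · obtain ⟨c, hc⟩ := h1 z hz
      refine ⟨Fin.castAdd m' c, ?_⟩
      rw [Fin.append_left, Fin.append_left]
      exact hc
    · obtain ⟨c, hc⟩ := h1' z hz
      refine ⟨Fin.natAdd m c, ?_⟩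
      rw [Fin.append_right, Fin.append_right]
      exact hc
  · rw [Fin.sum_univ_add]
    simp only [Fin.append_left, Fin.append_right]
    exact add_le_add h2 h2'

theorem CovN.empty (m : ℕ) : CovN m (∅ : Set ℂ) 0 :=
  ⟨fun _ => 0, fun _ => 0, fun _ => le_rfl, fun z hz => absurd hz (notMem_empty z), by simp⟩

theorem CovN.pad {m m' : ℕ} {S : Set ℂ} {ρ : ℝ} (h : CovN m S ρ) (hm : m ≤ m') :
    CovN m' S ρ := by
  obtain ⟨k, rfl⟩ := Nat.exists_eq_add_of_le hm
  have h1 := h.union (CovN.empty k)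
  rw [union_empty, add_zero] at h1
  exact h1

theorem CovN.scale {m : ℕ} {S : Set ℂ} {ρ : ℝ} (h : CovN m S ρ) (c : ℂ) :
    CovN m ((fun z => c * z) '' S) (‖c‖ * ρ) := by
  obtain ⟨M, R, h0, h1, h2⟩ := h
  refine ⟨fun i => c * M i, fun i => ‖c‖ * R i,
    fun i => mul_nonneg (norm_nonneg c) (h0 i), ?_, ?_⟩
  · rintro _ ⟨z, hz, rfl⟩
    obtain ⟨i, hi⟩ := h1 z hz
    refine ⟨i, ?_⟩
    rw [← mul_sub, norm_mul]
    exact mul_le_mul_of_nonneg_left hi (norm_nonneg c)
  · rw [← Finset.mul_sum]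
    exact mul_le_mul_of_nonneg_left h2 (norm_nonneg c)

/-- the induction statement -/
def Good2 (N : ℕ) : Prop :=
  ∀ f : ℂ[X], f.Monic → f.natDegree ≠ 0 → ConnCov N (lem f 1) → ∀ ρ, 2 < ρ →
    CovN (2 ^ N) (lem f 1) ρ

theorem lem_scale (p : ℂ[X]) (c : ℝ) (hc : 0 < c) :
    lem (C (((c : ℂ) ^ p.natDegree)⁻¹) * p.comp (C (c : ℂ) * X)) 1 =
      (fun z => ((c⁻¹ : ℝ) : ℂ) * z) '' lem p (c ^ p.natDegree) := by
  have hcC : (c : ℂ) ≠ 0 := by exact_mod_cast hc.ne'
  have hpow : (0 : ℝ) < c ^ p.natDegree := pow_pos hc _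
  have key : ∀ z : ℂ, ‖(C (((c : ℂ) ^ p.natDegree)⁻¹) * p.comp (C (c : ℂ) * X)).eval z‖ ≤ 1 ↔
      ‖p.eval ((c : ℂ) * z)‖ ≤ c ^ p.natDegree := by
    intro z
    rw [eval_mul, eval_C, eval_comp, eval_mul, eval_C, eval_X, norm_mul, norm_inv, norm_pow,
      Complex.norm_real, Real.norm_of_nonneg hc.le, inv_mul_le_iff₀ hpow, mul_one]
  ext z
  constructor
  · intro hz
    refine ⟨(c : ℂ) * z, (key z).1 hz, ?_⟩
    push_cast
    field_simp
  · rintro ⟨y, hy, rfl⟩
    refine (key _).2 ?_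
    have h1 : (c : ℂ) * (((c⁻¹ : ℝ) : ℂ) * y) = y := by
      push_cast
      field_simp
    rw [h1]
    exact hy

theorem scaled_natDegree (p : ℂ[X]) (c : ℝ) (hc : 0 < c) :
    (p.comp (C (c : ℂ) * X)).natDegree = p.natDegree := by
  have hcC : (c : ℂ) ≠ 0 := by exact_mod_cast hc.ne'
  rw [natDegree_comp, natDegree_C_mul_X _ hcC, mul_one]

theorem scaled_monic {p : ℂ[X]} (hp : p.Monic) (c : ℝ) (hc : 0 < c) :
    (C (((c : ℂ) ^ p.natDegree)⁻¹) * p.comp (C (c : ℂ) * X)).Monic := by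
  have hcC : (c : ℂ) ≠ 0 := by exact_mod_cast hc.ne'
  have h1 : (p.comp (C (c : ℂ) * X)).leadingCoeff = (c : ℂ) ^ p.natDegree := by
    rw [leadingCoeff_comp, hp.leadingCoeff, one_mul, leadingCoeff_C_mul_X]
    rw [natDegree_C_mul_X _ hcC]
    exact one_ne_zero
  rw [Monic, leadingCoeff_mul, leadingCoeff_C, h1, inv_mul_cancel₀]
  exact pow_ne_zero _ hcC

theorem scaled2 {N : ℕ} (hG : Good2 N) {p : ℂ[X]} (hp : p.Monic) (hn0 : p.natDegree ≠ 0) (c : ℝ)
    (hc : 0 < c) (hN : ConnCov N (lem p (c ^ p.natDegree))) (ρ : ℝ) (hρ : 2 * c < ρ) :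
    CovN (2 ^ N) (lem p (c ^ p.natDegree)) ρ := by
  have hcC : (c : ℂ) ≠ 0 := by exact_mod_cast hc.ne'
  have hl := lem_scale p c hc
  have hm := scaled_monic hp c hc
  have hd : (C (((c : ℂ) ^ p.natDegree)⁻¹) * p.comp (C (c : ℂ) * X)).natDegree ≠ 0 := by
    rw [natDegree_C_mul (inv_ne_zero (pow_ne_zero _ hcC)), scaled_natDegree p c hc]
    exact hn0
  have hcov : ConnCov N (lem (C (((c : ℂ) ^ p.natDegree)⁻¹) * p.comp (C (c : ℂ) * X)) 1) := by
    rw [hl]
    exact connCov_scale hN _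
  have hρ' : 2 < ρ / c := by rwa [lt_div_iff₀ hc]
  have h1 := hG _ hm hd hcov (ρ / c) hρ'
  have h2 := h1.scale (c : ℂ)
  rw [hl, image_image, Complex.norm_real, Real.norm_of_nonneg hc.le, mul_div_cancel₀ _ hc.ne'] at h2
  refine h2.subset ?_
  intro z hz
  refine ⟨z, hz, ?_⟩
  push_cast
  field_simp

theorem nz_pos {f : ℂ[X]} (hf : f.Monic) {O : Set ℂ} {a : ℂ} (ha : f.eval a = 0) (haO : a ∈ O) :
    0 < nz f O := by
  classical
  unfold nz
  rw [Multiset.card_pos_iff_exists_mem]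
  exact ⟨a, Multiset.mem_filter.2 ⟨(mem_roots hf.ne_zero).2 ha, haO⟩⟩

theorem part_cov {N : ℕ} (hG : ∀ N' < N, Good2 N') {f : ℂ[X]} (hf : f.Monic)
    (hn0 : f.natDegree ≠ 0) (hN : ConnCov N (lem f 1)) {O O' : Set ℂ} (hS : Sep f 1 O O')
    (hk : ∃ a, f.eval a = 0 ∧ a ∈ O) (hk' : ∃ a, f.eval a = 0 ∧ a ∈ O') (d : ℝ) (hd : 0 < d)
    (hTD : TD (lem f 1 ∩ O) d) (ρ : ℝ) (hρ : 2 * d < ρ) :
    CovN (2 ^ (N - 1)) (lem f 1 ∩ O) ρ := by
  obtain ⟨a', ha', haO'⟩ := hk'
  obtain ⟨a, ha, haO⟩ := hk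
  obtain ⟨N', hN', hcc⟩ := connCov_part le_rfl hS (nz_pos hf ha' haO') hN
  obtain ⟨c, hc1, hc2⟩ : ∃ c : ℝ, d < c ∧ 2 * c < ρ := ⟨(d + ρ / 2) / 2, by linarith, by linarith⟩
  have hc : 0 < c := hd.trans hc1
  obtain ⟨k, hk0, hk⟩ := hTD c hc1
  have hne : (lem f 1 ∩ O).Nonempty := by
    refine ⟨a, ?_, haO⟩
    change ‖f.eval a‖ ≤ 1
    rw [ha, norm_zero]
    exact zero_le_one
  obtain ⟨n, hn, z, hz, hzb⟩ := fekete (lem f 1 ∩ O) (part_compact hf hn0 le_rfl hS) hne c hc k hk0 hk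
  have hdeg : (∏ i, (X - C (z i))).natDegree = n := by
    rw [natDegree_prod_of_monic _ _ fun i _ => monic_X_sub_C (z i)]
    simp
  have hmon : (∏ i, (X - C (z i))).Monic := monic_prod_of_monic _ _ fun i _ => monic_X_sub_C (z i)
  have hdeg0 : (∏ i, (X - C (z i))).natDegree ≠ 0 := by
    rw [hdeg]
    omega
  have hzer : ∀ b, (∏ i, (X - C (z i))).eval b = 0 → b ∈ lem f 1 ∩ O := by
    intro b hb
    rw [eval_prod, Finset.prod_eq_zero_iff] at hb
    obtain ⟨i, _, hi⟩ := hb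
    rw [eval_sub, eval_X, eval_C, sub_eq_zero] at hi
    rw [hi]
    exact hz i
  have hsub : lem f 1 ∩ O ⊆ lem (∏ i, (X - C (z i))) (c ^ (∏ i, (X - C (z i))).natDegree) := by
    intro x hx
    change ‖(∏ i, (X - C (z i))).eval x‖ ≤ c ^ (∏ i, (X - C (z i))).natDegree
    rw [hdeg, eval_prod, norm_prod]
    refine le_trans (le_of_eq ?_) (hzb x hx)
    refine Finset.prod_congr rfl fun i _ => ?_
    rw [eval_sub, eval_X, eval_C]
  have h3 : ConnCov N' (lem (∏ i, (X - C (z i))) (c ^ (∏ i, (X - C (z i))).natDegree)) :=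
    connCov_poly hmon hdeg0 _ _ hzer hsub hcc
  have h4 := (scaled2 (hG N' hN') hmon hdeg0 c hc h3 ρ hc2).subset hsub
  exact h4.pad (Nat.pow_le_pow_right (by norm_num) (by omega))

/-- the lemniscate is the closure of its interior -/
theorem mem_closure_lt {f : ℂ[X]} (hn0 : f.natDegree ≠ 0) {z : ℂ} (hz : ‖f.eval z‖ ≤ 1) :
    z ∈ closure {w : ℂ | ‖f.eval w‖ < 1} := by
  rcases lt_or_eq_of_le hz with h | h
  · exact subset_closure h
  · rw [Metric.mem_closure_iff]
    intro ε hε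
    have han : AnalyticOnNhd ℂ (fun w : ℂ => f.eval w) univ := by
      have : Differentiable ℂ (fun w : ℂ => f.eval w) := f.differentiable
      exact this.differentiableOn.analyticOnNhd isOpen_univ
    rcases han.is_constant_or_isOpen isPreconnected_univ with ⟨w, hw⟩ | ho
    · exfalso
      apply hn0
      have h1 : f = C w := by
        refine Polynomial.funext fun x => ?_
        rw [eval_C]
        exact hw x (mem_univ _)
      rw [h1, natDegree_C]
    · have h2 : IsOpen ((fun w : ℂ => f.eval w) '' Metric.ball z ε) :=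
        ho _ (subset_univ _) Metric.isOpen_ball
      have h3 : f.eval z ∈ (fun w : ℂ => f.eval w) '' Metric.ball z ε :=
        ⟨z, Metric.mem_ball_self hε, rfl⟩
      obtain ⟨δ, hδ, hball⟩ := Metric.isOpen_iff.1 h2 _ h3
      obtain ⟨t, ht0, ht1⟩ : ∃ t : ℝ, 0 < t ∧ t < min δ 1 :=
        exists_between (lt_min hδ one_pos)
      have ht2 : t < δ := lt_of_lt_of_le ht1 (min_le_left _ _)
      have ht3 : t < 1 := lt_of_lt_of_le ht1 (min_le_right _ _)
      have h4 : ((1 - t : ℝ) : ℂ) * f.eval z ∈ Metric.ball (f.eval z) δ := by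
        rw [Metric.mem_ball, dist_eq_norm]
        have : ((1 - t : ℝ) : ℂ) * f.eval z - f.eval z = ((-t : ℝ) : ℂ) * f.eval z := by
          push_cast
          ring
        rw [this, norm_mul, h, mul_one, Complex.norm_real, norm_neg, Real.norm_of_nonneg ht0.le]
        exact ht2
      obtain ⟨w, hw, hwe⟩ := hball h4
      refine ⟨w, ?_, ?_⟩
      · change ‖f.eval w‖ < 1
        have hwe' : f.eval w = ((1 - t : ℝ) : ℂ) * f.eval z := hwe
        rw [hwe', norm_mul, h, mul_one, Complex.norm_real, Real.norm_of_nonneg (by linarith)]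
        linarith
      · rw [dist_comm]
        exact hw

theorem good2_all (hC : CircleThm) : ∀ N, Good2 N := by
  intro N
  induction N using Nat.strong_induction_on with
  | _ N ih =>
    intro f hf hn0 hN ρ hρ
    by_cases h : ∀ e, ‖f.eval e‖ < 1 → ‖e - cen f‖ ≤ 2
    · have h1 : CovN 1 (lem f 1) 2 := by
        refine ⟨fun _ => cen f, fun _ => 2, fun _ => by norm_num, fun z hz => ⟨0, ?_⟩, by simp⟩
        have h2 := mem_closure_lt hn0 (show ‖f.eval z‖ ≤ 1 from hz)
        have h3 : IsClosed {w : ℂ | ‖w - cen f‖ ≤ 2} :=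
          isClosed_le (by fun_prop) continuous_const
        exact closure_minimal (fun w hw => h w hw) h3 h2
      exact (h1.pad Nat.one_le_two_pow).mono hρ.le
    · push Not at h
      obtain ⟨e, he, he2⟩ := h
      obtain ⟨r, p, hr⟩ := hC f hf hn0 e he he2
      have hS : Sep f 1 {z | ‖z - e‖ < r} {z | r < ‖z - e‖} := by
        refine ⟨isOpen_lt (by fun_prop) continuous_const, isOpen_lt continuous_const (by fun_prop),
          ?_, ?_⟩
        · rw [Set.disjoint_left]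
          intro z hz hz'
          have hz1 : ‖z - e‖ < r := hz
          have hz2 : r < ‖z - e‖ := hz'
          exact lt_irrefl _ (hz1.trans hz2)
        · intro z hz
          rcases lt_trichotomy ‖z - e‖ r with h1 | h1 | h1
          · exact Or.inl h1
          · exact absurd (hr.miss z h1) (not_lt.2 hz)
          · exact Or.inr h1
      have hp := hr.pos
      have hl := hr.lt
      have hA := part_cov ih hf hn0 hN hS hr.inn hr.out p (by linarith) hr.tdA
        (2 * p + (ρ - 2) / 2) (by linarith)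
      have hB := part_cov ih hf hn0 hN hS.symm hr.out hr.inn (1 - p) (by linarith) hr.tdB
        (2 - 2 * p + (ρ - 2) / 2) (by linarith)
      have hN1 : 1 ≤ N := by
        obtain ⟨a, ha, haO⟩ := hr.out
        obtain ⟨N', hN', _⟩ := connCov_part le_rfl hS (nz_pos hf ha haO) hN
        omega
      have h5 := hA.union hB
      rw [← two_mul, ← pow_succ', Nat.sub_add_cancel hN1] at h5
      refine (h5.mono (by linarith)).subset ?_
      intro z hz
      rcases hS.cover hz with h6 | h6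
      · exact Or.inl ⟨hz, h6⟩
      · exact Or.inr ⟨hz, h6⟩

/-- compactness of covers with a bounded number of discs -/
theorem covN_limit {m : ℕ} {K : Set ℂ} (hK : Bornology.IsBounded K) {x : ℝ}
    (h : ∀ ρ, x < ρ → CovN m K ρ) : CovN m K x := by
  obtain ⟨B, hB0⟩ := hK.exists_norm_le
  obtain ⟨B', hB'⟩ : ∃ B', B' = max B 0 := ⟨_, rfl⟩
  have hB : ∀ z ∈ K, ‖z‖ ≤ B' := fun z hz => by
    rw [hB']
    exact (hB0 z hz).trans (le_max_left _ _)
  have hBpos : 0 ≤ B' := by rw [hB']; exact le_max_right _ _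
  obtain ⟨Y, hY⟩ : ∃ Y, Y = |x| + 1 := ⟨_, rfl⟩
  have hYpos : 0 ≤ Y := by rw [hY]; positivity
  obtain ⟨T, hT⟩ : ∃ T : Set ((Fin m → ℂ) × (Fin m → ℝ)), T =
      ((Set.pi univ fun _ => Metric.closedBall (0 : ℂ) (B' + Y)) ×ˢ
        (Set.pi univ fun _ => Icc (0 : ℝ) Y)) ∩ {q | ∀ z ∈ K, ∃ c, ‖z - q.1 c‖ ≤ q.2 c} := ⟨_, rfl⟩
  have hclosed : IsClosed {q : (Fin m → ℂ) × (Fin m → ℝ) | ∀ z ∈ K, ∃ c, ‖z - q.1 c‖ ≤ q.2 c} := by
    have : {q : (Fin m → ℂ) × (Fin m → ℝ) | ∀ z ∈ K, ∃ c, ‖z - q.1 c‖ ≤ q.2 c} =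
        ⋂ z ∈ K, ⋃ c, {q | ‖z - q.1 c‖ ≤ q.2 c} := by
      ext q
      simp
    rw [this]
    refine isClosed_biInter fun z _ => isClosed_iUnion_of_finite fun c => ?_
    exact isClosed_le (by fun_prop) (by fun_prop)
  have hTc : IsCompact T := by
    rw [hT]
    refine IsCompact.inter_right ?_ hclosed
    exact (isCompact_univ_pi fun _ => isCompact_closedBall _ _).prod
      (isCompact_univ_pi fun _ => isCompact_Icc)
  have hex : ∀ ρ, x < ρ → ρ ≤ Y → ∃ q ∈ T, ∑ c, q.2 c ≤ ρ := by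
    intro ρ hρ hρ2
    obtain ⟨M, R, h0, h1, h2⟩ := h ρ hρ
    have hRle : ∀ c, R c ≤ Y := fun c =>
      ((Finset.single_le_sum (fun i _ => h0 i) (Finset.mem_univ c)).trans h2).trans hρ2
    classical
    obtain ⟨g, hg⟩ : ∃ g : Fin m → Prop, g = fun c => ∃ z ∈ K, ‖z - M c‖ ≤ R c := ⟨_, rfl⟩
    refine ⟨(fun c => if g c then M c else 0, fun c => if g c then R c else 0), ?_, ?_⟩
    · rw [hT]
      refine ⟨⟨?_, ?_⟩, ?_⟩
      · intro c _
        rw [mem_closedBall_zero_iff]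
        by_cases hgc : g c
        · simp only [hgc, if_true]
          rw [hg] at hgc
          obtain ⟨z, hz, hzc⟩ := hgc
          have h5 : ‖M c‖ ≤ ‖z‖ + ‖z - M c‖ := by
            have : M c = z - (z - M c) := by ring
            calc ‖M c‖ = ‖z - (z - M c)‖ := by rw [← this]
              _ ≤ ‖z‖ + ‖z - M c‖ := norm_sub_le _ _
          have h6 := hB z hz
          have h7 := hRle c
          linarith
        · simp only [hgc, if_false, norm_zero]
          linarith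
      · intro c _
        by_cases hgc : g c
        · simp only [hgc, if_true]
          exact ⟨h0 c, hRle c⟩
        · simp only [hgc, if_false]
          exact ⟨le_rfl, hYpos⟩
      · intro z hz
        obtain ⟨c, hc⟩ := h1 z hz
        refine ⟨c, ?_⟩
        have hgc : g c := by
          rw [hg]
          exact ⟨z, hz, hc⟩
        simp only [hgc, if_true]
        exact hc
    · refine le_trans (Finset.sum_le_sum fun c _ => ?_) h2
      by_cases hgc : g c
      · simp only [hgc, if_true]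
        exact le_rfl
      · simp only [hgc, if_false]
        exact h0 c
  have hTne : T.Nonempty := by
    obtain ⟨q, hq, _⟩ := hex Y (by rw [hY]; linarith [le_abs_self x]) le_rfl
    exact ⟨q, hq⟩
  have hcont : ContinuousOn (fun q : (Fin m → ℂ) × (Fin m → ℝ) => ∑ c, q.2 c) T := by
    fun_prop
  obtain ⟨q, hq, hmin⟩ := hTc.exists_isMinOn hTne hcont
  have hle : ∑ c, q.2 c ≤ x := by
    refine le_of_forall_gt_imp_ge_of_dense fun ρ hρ => ?_
    obtain ⟨q', hq', hq''⟩ := hex (min ρ Y) (lt_min hρ (by rw [hY]; linarith [le_abs_self x]))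
      (min_le_right _ _)
    exact ((isMinOn_iff.1 hmin q' hq').trans hq'').trans (min_le_left _ _)
  rw [hT] at hq
  exact ⟨q.1, q.2, fun c => (hq.1.2 c (mem_univ _)).1, hq.2, hle⟩

open N460a421b in
/-- the circle theorem gives the covering by discs of total radius at most `2` -/
theorem cover_two (hC : CircleThm) (f : ℂ[X]) (hf : f.Monic) (hn0 : f.natDegree ≠ 0) :
    ∃ (ι : Type), Nonempty (BoundedDiscCover {z : ℂ | ‖f.eval z‖ ≤ 1} 2 ι) := by
  have hcov : CovN (2 ^ f.natDegree) (lem f 1) 2 :=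
    covN_limit (lem_compact hf hn0 1).isBounded
      (good2_all hC _ f hf hn0 (connCov_lem hf hn0 1 zero_le_one))
  obtain ⟨M, R, h0, h1, h2⟩ := hcov
  refine ⟨{c // 0 < R c}, ⟨⟨fun c => M c.1, fun c => R c.1, ?_, ?_, ?_, fun c => c.2⟩⟩⟩
  · have hcl : IsClosed (⋃ c : {c // 0 < R c}, Metric.closedBall (M c.1) (R c.1)) :=
      isClosed_iUnion_of_finite fun c => Metric.isClosed_closedBall
    have hsub : {w : ℂ | ‖f.eval w‖ < 1} ⊆
        closure (⋃ c : {c // 0 < R c}, Metric.closedBall (M c.1) (R c.1)) := by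
      intro w hw
      rw [Metric.mem_closure_iff]
      intro ε hε
      have hfin : (range M).Finite := finite_range M
      have hopen : IsOpen ({w : ℂ | ‖f.eval w‖ < 1} ∩ Metric.ball w ε) :=
        (isOpen_lt (by fun_prop) continuous_const).inter Metric.isOpen_ball
      have hinf : ({w : ℂ | ‖f.eval w‖ < 1} ∩ Metric.ball w ε).Infinite := by
        obtain ⟨δ, hδ, hb⟩ := Metric.isOpen_iff.1 hopen w ⟨hw, Metric.mem_ball_self hε⟩
        refine Set.Infinite.mono hb ?_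
        exact infinite_of_mem_nhds w (Metric.ball_mem_nhds w hδ)
      obtain ⟨y, hy, hyM⟩ := hinf.exists_notMem_finite hfin
      have hy1 : ‖f.eval y‖ < 1 := hy.1
      obtain ⟨c, hc⟩ := h1 y (show ‖f.eval y‖ ≤ 1 from hy1.le)
      have hRc : 0 < R c := by
        rcases (h0 c).lt_or_eq with h3 | h3
        · exact h3
        · exfalso
          apply hyM
          rw [← h3] at hc
          have : y - M c = 0 := norm_le_zero_iff.1 hc
          exact ⟨c, (sub_eq_zero.1 this).symm⟩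
      refine ⟨y, mem_iUnion.2 ⟨⟨c, hRc⟩, ?_⟩, ?_⟩
      · rw [Metric.mem_closedBall, dist_eq_norm]
        exact hc
      · rw [dist_comm]
        exact hy.2
    intro z hz
    rw [hcl.closure_eq] at hsub
    exact closure_minimal hsub hcl (mem_closure_lt hn0 hz)
  · exact Summable.of_finite
  · rw [tsum_fintype]
    refine le_trans ?_ h2
    have h3 : ∑ c : {c // 0 < R c}, R c.1 = ∑ c ∈ Finset.univ.filter (fun c => 0 < R c), R c :=
      (Finset.sum_subtype (Finset.univ.filter (fun c => 0 < R c)) (by simp) R).symm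
    rw [h3]
    exact Finset.sum_le_sum_of_subset_of_nonneg (Finset.filter_subset _ _) fun c _ _ => h0 c

end Pool.Agent.H75.EH
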